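import Mathlib

/-! Assembly of project AT (MP_d88658_nt): arithmetic of the values of the homogenisations. -/

set_option autoImplicit false

namespace Pool.Agent.K7.H90.AS

open Polynomial

theorem coprime_eval {f : ℤ[X]} (hf : f.Monic) {x m : ℤ} (h : IsCoprime x m) :
    IsCoprime ((f.scaleRoots m).eval x) m := by
  have h1 : m ∣ (f.scaleRoots m).eval x - x ^ f.natDegree := by
    rw [eval_eq_sum_range, natDegree_scaleRoots, Finset.sum_range_succ, coeff_scaleRoots]
    have h2 : f.coeff f.natDegree = 1 := hf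
    rw [h2, Nat.sub_self, pow_zero, mul_one, one_mul, add_sub_cancel_right]
    refine Finset.dvd_sum fun i hi => ?_
    rw [Finset.mem_range] at hi
    rw [coeff_scaleRoots]
    refine Dvd.dvd.mul_right (Dvd.dvd.mul_left ?_ _) _
    exact dvd_pow_self m (by omega)
  obtain ⟨k, hk⟩ := h1
  have h3 : (f.scaleRoots m).eval x = x ^ f.natDegree + m * k := by linarith
  rw [h3]
  exact (h.pow_left).add_mul_left_left k

/-- the value of the homogenisation modulo `p` -/
theorem hom_mod (f : ℤ[X]) {x m r : ℤ} {p : ℕ} (hp : p.Prime) (hpm : ¬ (p : ℤ) ∣ m)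
    (hr : (p : ℤ) ∣ x - m * r) : (p : ℤ) ∣ (f.scaleRoots m).eval x ↔ (p : ℤ) ∣ f.eval r := by
  have : Fact p.Prime := ⟨hp⟩
  rw [← ZMod.intCast_zmod_eq_zero_iff_dvd, ← ZMod.intCast_zmod_eq_zero_iff_dvd]
  have hx : (x : ZMod p) = (m : ZMod p) * (r : ZMod p) := by
    rw [← ZMod.intCast_zmod_eq_zero_iff_dvd] at hr
    push_cast at hr
    exact sub_eq_zero.1 hr
  have hm : (m : ZMod p) ≠ 0 := by
    rw [Ne, ZMod.intCast_zmod_eq_zero_iff_dvd]
    exact hpm
  have e1 : (((f.scaleRoots m).eval x : ℤ) : ZMod p) =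
      (m : ZMod p) ^ f.natDegree * ((f.eval r : ℤ) : ZMod p) := by
    have h1 : (((f.scaleRoots m).eval x : ℤ) : ZMod p) =
        eval₂ (Int.castRingHom (ZMod p)) (x : ZMod p) (f.scaleRoots m) := by
      have := Polynomial.hom_eval₂ (f.scaleRoots m) (RingHom.id ℤ) (Int.castRingHom (ZMod p)) x
      rw [RingHom.comp_id] at this
      exact this
    have h2 : ((f.eval r : ℤ) : ZMod p) = eval₂ (Int.castRingHom (ZMod p)) (r : ZMod p) f := by
      have := Polynomial.hom_eval₂ f (RingHom.id ℤ) (Int.castRingHom (ZMod p)) r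
      rw [RingHom.comp_id] at this
      exact this
    rw [h1, h2, hx]
    have h3 := scaleRoots_eval₂_mul (p := f) (Int.castRingHom (ZMod p)) (r : ZMod p) m
    exact h3
  rw [e1, mul_eq_zero]
  constructor
  · rintro (h | h)
    · exact absurd h (pow_ne_zero _ hm)
    · exact h
  · intro h; exact Or.inr h

theorem exists_r (x : ℤ) {m : ℤ} {p : ℕ} (hp : p.Prime) (hpm : ¬ (p : ℤ) ∣ m) :
    ∃ r : ℤ, (p : ℤ) ∣ x - m * r := by
  have h1 : IsCoprime (p : ℤ) m := (Nat.prime_iff_prime_int.1 hp).coprime_iff_not_dvd.2 hpm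
  obtain ⟨a, b, hab⟩ := h1
  refine ⟨b * x, a * x, ?_⟩
  linear_combination (-x) * hab

/-- a common prime divisor of the values of `f₁` and `h` divides `R` -/
theorem common {f₁ h a b : ℤ[X]} {R : ℤ} (hab : a * f₁ + b * h = C R) (hf₁ : f₁.Monic)
    {x m : ℤ} (hxm : IsCoprime x m) {p : ℕ} (hp : p.Prime)
    (h1 : (p : ℤ) ∣ (f₁.scaleRoots m).eval x) (h2 : (p : ℤ) ∣ (h.scaleRoots m).eval x) :
    (p : ℤ) ∣ R := by
  have hpm : ¬ (p : ℤ) ∣ m := by
    intro h3
    have h4 := (coprime_eval hf₁ hxm).isUnit_of_dvd' h1 h3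
    exact (Nat.prime_iff_prime_int.1 hp).not_isUnit h4
  obtain ⟨r, hr⟩ := exists_r x hp hpm
  rw [hom_mod _ hp hpm hr] at h1 h2
  have h3 := congrArg (Polynomial.eval r) hab
  rw [eval_add, eval_mul, eval_mul, eval_C] at h3
  rw [← h3]
  exact dvd_add (Dvd.dvd.mul_left h1 _) (Dvd.dvd.mul_left h2 _)

/-- Bezout with integral coefficients -/
theorem bezout {f₁ h : ℤ[X]}
    (hc : IsCoprime (f₁.map (Int.castRingHom ℚ)) (h.map (Int.castRingHom ℚ))) :
    ∃ (R : ℕ) (a b : ℤ[X]), 0 < R ∧ a * f₁ + b * h = C (R : ℤ) := by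
  obtain ⟨u, v, huv⟩ := hc
  obtain ⟨bu, hbu, h1⟩ := IsLocalization.integerNormalization_spec (nonZeroDivisors ℤ) u
  obtain ⟨bv, hbv, h2⟩ := IsLocalization.integerNormalization_spec (nonZeroDivisors ℤ) v
  set u' := IsLocalization.integerNormalization (nonZeroDivisors ℤ) u
  set v' := IsLocalization.integerNormalization (nonZeroDivisors ℤ) v
  have hbu0 : bu ≠ 0 := nonZeroDivisors.ne_zero hbu
  have hbv0 : bv ≠ 0 := nonZeroDivisors.ne_zero hbv
  have e : algebraMap ℤ ℚ = Int.castRingHom ℚ := rfl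
  rw [e] at h1 h2
  have key : (C bv * u') * f₁ + (C bu * v') * h = C (bu * bv) := by
    apply Polynomial.map_injective (Int.castRingHom ℚ) Int.cast_injective
    rw [Polynomial.map_add, Polynomial.map_mul, Polynomial.map_mul, Polynomial.map_mul,
      Polynomial.map_mul, h1, h2, Polynomial.map_C, Polynomial.map_C, Polynomial.map_C]
    simp only [zsmul_eq_mul, eq_intCast]
    have e1 : (C ((bu * bv : ℤ) : ℚ) : ℚ[X]) = C ((bu * bv : ℤ) : ℚ) * 1 := (mul_one _).symm
    rw [e1, ← huv]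
    have e2 : ((bu : ℤ) : ℚ[X]) = C ((bu : ℤ) : ℚ) := by simp
    have e3 : ((bv : ℤ) : ℚ[X]) = C ((bv : ℤ) : ℚ) := by simp
    rw [e2, e3]
    push_cast
    rw [C_mul]
    ring
  rcases lt_or_gt_of_ne (mul_ne_zero hbu0 hbv0) with h0 | h0
  · refine ⟨(bu * bv).natAbs, -(C bv * u'), -(C bu * v'), Int.natAbs_pos.2 h0.ne, ?_⟩
    have e1 : (((bu * bv).natAbs : ℕ) : ℤ) = -(bu * bv) := by
      rw [Int.natCast_natAbs, abs_of_neg h0]
    rw [e1, C_neg, ← key]
    ring
  · refine ⟨(bu * bv).natAbs, C bv * u', C bu * v', Int.natAbs_pos.2 h0.ne', ?_⟩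
    have e1 : (((bu * bv).natAbs : ℕ) : ℤ) = bu * bv := by
      rw [Int.natCast_natAbs, abs_of_pos h0]
    rw [e1, key]

/-- squarefree part -/
theorem int_sqf (a : ℤ) (ha : a ≠ 0) : ∃ g s : ℤ, a = g * s ^ 2 ∧ Squarefree g ∧ 0 < s := by
  obtain ⟨c, b, h1, h2⟩ := Nat.sq_mul_squarefree a.natAbs
  have hb : 0 < b := by
    rcases Nat.eq_zero_or_pos b with h | h
    · rw [h] at h1
      simp at h1
      exact absurd h1.symm (by simpa using ha)
    · exact h
  have hsq : Squarefree (c : ℤ) := Int.squarefree_natCast.2 h2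
  rcases lt_or_gt_of_ne ha with h0 | h0
  · refine ⟨-(c : ℤ), b, ?_, ?_, by exact_mod_cast hb⟩
    · have : (a.natAbs : ℤ) = -a := by rw [Int.natCast_natAbs, abs_of_neg h0]
      rw [← h1] at this
      push_cast at this
      linarith
    · apply Int.squarefree_natAbs.1
      simpa using h2
  · refine ⟨(c : ℤ), b, ?_, hsq, by exact_mod_cast hb⟩
    have : (a.natAbs : ℤ) = a := by rw [Int.natCast_natAbs, abs_of_pos h0]
    rw [← h1] at this
    push_cast at this
    linarith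

/-- three squarefree numbers with a square product: a prime dividing the first divides one of the
others -/
theorem tri {a b c w : ℤ} (ha : Squarefree a) (h : a * b * c = w ^ 2) {p : ℕ} (hp : p.Prime)
    (hpa : (p : ℤ) ∣ a) : (p : ℤ) ∣ b ∨ (p : ℤ) ∣ c := by
  have hpi := Nat.prime_iff_prime_int.1 hp
  by_contra hcon
  push Not at hcon
  have h1 : (p : ℤ) ∣ w ^ 2 := by
    rw [← h, mul_assoc]
    exact hpa.mul_right _
  have h2 : (p : ℤ) ∣ w := hpi.dvd_of_dvd_pow h1
  have h3 : (p : ℤ) ^ 2 ∣ a * b * c := by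
    rw [h]
    exact pow_dvd_pow_of_dvd h2 2
  have h4 : IsCoprime ((p : ℤ) ^ 2) c := ((hpi.coprime_iff_not_dvd).2 hcon.2).pow_left
  have h5 : IsCoprime ((p : ℤ) ^ 2) b := ((hpi.coprime_iff_not_dvd).2 hcon.1).pow_left
  have h6 : (p : ℤ) ^ 2 ∣ a := h5.dvd_of_dvd_mul_right (h4.dvd_of_dvd_mul_right h3)
  rw [pow_two] at h6
  exact hpi.not_isUnit (ha _ h6)

/-- squarefree numbers are products of their primes -/
theorem sqf_dvd {a b : ℤ} (ha : Squarefree a) (h : ∀ p : ℕ, p.Prime → (p : ℤ) ∣ a → (p : ℤ) ∣ b) :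
    a ∣ b := by
  have h1 : Squarefree a.natAbs := Int.squarefree_natAbs.2 ha
  rw [← Int.natAbs_dvd_natAbs, ← Nat.prod_primeFactors_of_squarefree h1]
  apply Finset.prod_primes_dvd
  · intro p hp
    exact (Nat.prime_of_mem_primeFactors hp).prime
  · intro p hp
    have h2 := h p (Nat.prime_of_mem_primeFactors hp)
      (Int.natCast_dvd.2 (Nat.dvd_of_mem_primeFactors hp))
    exact Int.natCast_dvd.1 h2

/-- the squarefree part is unique -/
theorem sqf_unique {a b F u v : ℤ} (ha : Squarefree a) (hb : Squarefree b) (hF : F ≠ 0)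
    (h1 : a * F = u ^ 2) (h2 : b * F = v ^ 2) : a = b := by
  have h3 : F ^ 2 * (a * b) = (u * v) ^ 2 := by
    rw [mul_pow, ← h1, ← h2]; ring
  have h4 : F ∣ u * v := by
    rw [← Int.pow_dvd_pow_iff (n := 2) (by norm_num)]
    exact ⟨_, h3.symm⟩
  obtain ⟨t, ht⟩ := h4
  have h5 : a * b = t ^ 2 := by
    rw [ht, mul_pow] at h3
    exact mul_left_cancel₀ (pow_ne_zero 2 hF) h3
  have hab : a ∣ b := sqf_dvd ha fun p hp hpa => by
    rcases tri (b := b) (c := 1) (w := t) ha (by rw [mul_one, h5]) hp hpa with h | h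
    · exact h
    · exact absurd (isUnit_of_dvd_one h) (Nat.prime_iff_prime_int.1 hp).not_isUnit
  have hba : b ∣ a := sqf_dvd hb fun p hp hpb => by
    rcases tri (b := a) (c := 1) (w := t) hb (by rw [mul_one, mul_comm, h5]) hp hpb with h | h
    · exact h
    · exact absurd (isUnit_of_dvd_one h) (Nat.prime_iff_prime_int.1 hp).not_isUnit
  rcases Int.associated_iff.1 (associated_of_dvd_dvd hab hba) with h | h
  · exact h
  · exfalso
    rw [h] at h5
    have hb0 : b ≠ 0 := hb.ne_zero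
    have : 0 < b ^ 2 := by positivity
    nlinarith [sq_nonneg t]

/-- the size of the squarefree parts -/
theorem size {g0 g1 h1 w R : ℤ} (hR : R ≠ 0) (s0 : Squarefree g0) (s1 : Squarefree g1)
    (s2 : Squarefree h1)
    (hw : g0 * g1 * h1 = w ^ 2) (hcom : ∀ p : ℕ, p.Prime → (p : ℤ) ∣ g1 → (p : ℤ) ∣ h1 → (p : ℤ) ∣ R) :
    g1.natAbs * h1.natAbs ≤ R.natAbs ^ 2 * g0.natAbs := by
  classical
  -- a set of primes splits
  have split : ∀ a : ℤ, Squarefree a → a.natAbs ≤
      R.natAbs * ∏ p ∈ a.natAbs.primeFactors.filter (fun p => ¬ p ∣ R.natAbs), p := by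
    intro a ha
    have h1 : Squarefree a.natAbs := Int.squarefree_natAbs.2 ha
    have h2 := Nat.prod_primeFactors_of_squarefree h1
    have h3 := Finset.prod_filter_mul_prod_filter_not a.natAbs.primeFactors
      (fun p => p ∣ R.natAbs) (fun p => p)
    calc a.natAbs = (∏ p ∈ a.natAbs.primeFactors.filter (fun p => p ∣ R.natAbs), p) *
          ∏ p ∈ a.natAbs.primeFactors.filter (fun p => ¬ p ∣ R.natAbs), p := by
            rw [h3]; exact h2.symm
      _ ≤ R.natAbs * ∏ p ∈ a.natAbs.primeFactors.filter (fun p => ¬ p ∣ R.natAbs), p := by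
          apply Nat.mul_le_mul_right
          apply Nat.le_of_dvd (Int.natAbs_pos.2 hR)
          apply Finset.prod_primes_dvd
          · intro p hp
            exact (Nat.prime_of_mem_primeFactors (Finset.mem_filter.1 hp).1).prime
          · intro p hp
            exact (Finset.mem_filter.1 hp).2
  set A := g1.natAbs.primeFactors.filter (fun p => ¬ p ∣ R.natAbs) with hA
  set B := h1.natAbs.primeFactors.filter (fun p => ¬ p ∣ R.natAbs) with hB
  have hAB : Disjoint A B := by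
    rw [Finset.disjoint_left]
    intro p hpA hpB
    rw [hA, Finset.mem_filter] at hpA
    rw [hB, Finset.mem_filter] at hpB
    exact hpA.2 (Int.natCast_dvd.1 (hcom p (Nat.prime_of_mem_primeFactors hpA.1)
      (Int.natCast_dvd.2 (Nat.dvd_of_mem_primeFactors hpA.1))
      (Int.natCast_dvd.2 (Nat.dvd_of_mem_primeFactors hpB.1))))
  have hdvd : (∏ p ∈ A, p) * (∏ p ∈ B, p) ∣ g0.natAbs := by
    rw [← Finset.prod_union hAB]
    apply Finset.prod_primes_dvd
    · intro p hp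
      rcases Finset.mem_union.1 hp with h | h
      · exact (Nat.prime_of_mem_primeFactors (Finset.mem_filter.1 h).1).prime
      · exact (Nat.prime_of_mem_primeFactors (Finset.mem_filter.1 h).1).prime
    · intro p hp
      rcases Finset.mem_union.1 hp with h | h
      · have hpA := (Finset.mem_filter.1 h)
        have hpp := Nat.prime_of_mem_primeFactors hpA.1
        have hpg : (p : ℤ) ∣ g1 := Int.natCast_dvd.2 (Nat.dvd_of_mem_primeFactors hpA.1)
        rcases tri (a := g1) (b := g0) (c := h1) (w := w) s1 (by rw [← hw]; ring) hpp hpg with h' | h'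
        · exact Int.natCast_dvd.1 h'
        · exact absurd (Int.natCast_dvd.1 (hcom p hpp hpg h')) hpA.2
      · have hpB := (Finset.mem_filter.1 h)
        have hpp := Nat.prime_of_mem_primeFactors hpB.1
        have hph : (p : ℤ) ∣ h1 := Int.natCast_dvd.2 (Nat.dvd_of_mem_primeFactors hpB.1)
        rcases tri (a := h1) (b := g0) (c := g1) (w := w) s2 (by rw [← hw]; ring) hpp hph with h' | h'
        · exact Int.natCast_dvd.1 h'
        · exact absurd (Int.natCast_dvd.1 (hcom p hpp h' hph)) hpB.2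
  have h0 := Nat.le_of_dvd (Int.natAbs_pos.2 s0.ne_zero) hdvd
  calc g1.natAbs * h1.natAbs ≤ (R.natAbs * ∏ p ∈ A, p) * (R.natAbs * ∏ p ∈ B, p) :=
        Nat.mul_le_mul (split g1 s1) (split h1 s2)
    _ = R.natAbs ^ 2 * ((∏ p ∈ A, p) * (∏ p ∈ B, p)) := by ring
    _ ≤ R.natAbs ^ 2 * g0.natAbs := Nat.mul_le_mul_left _ h0

/-- the decomposition of an exceptional number -/
theorem extract {f₁ h a b : ℤ[X]} {R : ℤ} (hR : R ≠ 0) (hab : a * f₁ + b * h = C R)
    (hf₁ : f₁.Monic) {D g m x y : ℤ} (hD : D ≠ 0) (hDg : D = g * m)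
    (hxm : IsCoprime x m) (hy : y ^ 2 = g * ((f₁ * h).scaleRoots m).eval x)
    (hF : ((f₁ * h).scaleRoots m).eval x ≠ 0) :
    ∃ s g0 g1 h1 y1 w : ℤ, 0 < s ∧ D = g0 * m * s ^ 2 ∧ Squarefree g0 ∧ Squarefree g1 ∧
      Squarefree h1 ∧ y1 ≠ 0 ∧ (f₁.scaleRoots m).eval x = g1 * y1 ^ 2 ∧
      g0 * ((f₁ * h).scaleRoots m).eval x = w ^ 2 ∧
      g1.natAbs * h1.natAbs ≤ R.natAbs ^ 2 * g0.natAbs ∧
      ∀ p : ℕ, p.Prime → (p : ℤ) ∣ g0 → (p : ℤ) ∣ g1 ∨ (p : ℤ) ∣ h1 := by
  have hsplit : ((f₁ * h).scaleRoots m).eval x =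
      (f₁.scaleRoots m).eval x * (h.scaleRoots m).eval x := by
    rw [mul_scaleRoots_of_noZeroDivisors, eval_mul]
  rw [hsplit] at hF hy ⊢
  have hg : g ≠ 0 := by rintro rfl; rw [zero_mul] at hDg; exact hD hDg
  obtain ⟨g0, s, e0, s0, hs⟩ := int_sqf g hg
  obtain ⟨g1, y1, e1, s1, hy1⟩ := int_sqf _ (left_ne_zero_of_mul hF)
  obtain ⟨h1, z1, e2, s2, hz1⟩ := int_sqf _ (right_ne_zero_of_mul hF)
  rw [e0, e1, e2] at hy
  have hT : s * y1 * z1 ≠ 0 := by positivity
  have h3 : y ^ 2 = (s * y1 * z1) ^ 2 * (g0 * g1 * h1) := by rw [hy]; ring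
  have h4 : s * y1 * z1 ∣ y := by
    rw [← Int.pow_dvd_pow_iff (n := 2) (by norm_num)]
    exact ⟨_, h3⟩
  obtain ⟨w, hw⟩ := h4
  have h5 : g0 * g1 * h1 = w ^ 2 := by
    rw [hw, mul_pow] at h3
    exact (mul_left_cancel₀ (pow_ne_zero 2 hT) h3).symm
  refine ⟨s, g0, g1, h1, y1, w * y1 * z1, hs, by rw [hDg, e0]; ring, s0, s1, s2, hy1.ne', e1, ?_,
    ?_, ?_⟩
  · rw [e1, e2]
    calc g0 * (g1 * y1 ^ 2 * (h1 * z1 ^ 2)) = (g0 * g1 * h1) * (y1 * z1) ^ 2 := by ring
      _ = (w * y1 * z1) ^ 2 := by rw [h5]; ring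
  · refine size hR s0 s1 s2 h5 fun p hp hp1 hp2 => ?_
    exact common hab hf₁ hxm hp (by rw [e1]; exact hp1.mul_right _) (by rw [e2]; exact hp2.mul_right _)
  · intro p hp hp0
    exact tri (a := g0) (b := g1) (c := h1) s0 h5 hp hp0

end Pool.Agent.K7.H90.AS
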