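import Pool.Agent.K7.H23.AT.Stm4
import Pool.Agent.K7.H90.AS.A

/-! Assembly of project AT (MP_d88658_nt): the number of large pairs with a small squarefree part. -/

set_option autoImplicit false

namespace Pool.Agent.K7.H90.AS

open Polynomial Pool.Agent.K7.H23.AT

/-- large pairs with a small squarefree part of the value of `f₁` -/
def PP (f₁ : ℤ[X]) (B N Y : ℕ) : Set (ℤ × ℤ) :=
  {p | 0 < p.2 ∧ p.2 ≤ N ∧ IsCoprime p.1 p.2 ∧ (B : ℤ) < |p.1| ∧
    ∃ g y : ℤ, Squarefree g ∧ g.natAbs ≤ Y ∧ y ≠ 0 ∧ (f₁.scaleRoots p.2).eval p.1 = g * y ^ 2}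

/-- the conclusion of `StSF` for degree `e` -/
def SFe (e M N : ℕ) : Prop :=
  ∀ (H : ℕ) (g : ℤ[X]) (D : ℚ[X]) (s : Finset (ℤ × ℤ)), 1 ≤ H →
    g.Monic → g.natDegree = e → (g.map (Int.castRingHom ℚ)).Separable → (∀ i, |g.coeff i| ≤ H) →
    (∀ θ : ℂ, aeval θ g = 0 → IsIntegral ℤ (aeval θ D) ∧ aeval θ D ≠ 0 ∧ ‖aeval θ D‖ ≤ H) →
    (∀ p ∈ s, 0 < p.2 ∧ p.2 ≤ H ∧ IsCoprime p.1 p.2 ∧ (2 * H : ℤ) ^ M < |p.1| ∧
      ∃ b : ℤ, b ≠ 0 ∧ ∃ B : ℚ[X], g.map (Int.castRingHom ℚ) ∣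
        B ^ 2 - C (b : ℚ) * D * (C (p.1 : ℚ) - C (p.2 : ℚ) * X)) →
    s.card ≤ N

theorem finite_of_bound {α : Type*} {A : Set α} {n : ℕ}
    (h : ∀ s : Finset α, (s : Set α) ⊆ A → s.card ≤ n) : A.Finite ∧ A.ncard ≤ n := by
  have hfin : A.Finite := by
    by_contra hinf
    obtain ⟨t, ht, hc⟩ := Set.Infinite.exists_subset_card_eq hinf (n + 1)
    have := h t ht
    omega
  refine ⟨hfin, ?_⟩
  rw [Set.ncard_eq_toFinset_card A hfin]
  apply h
  intro x hx
  simpa using hx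

theorem count (hCL : StCL) {e M Nn : ℕ} (hM : SFe e M Nn) {f₁ : ℤ[X]} (hf₁ : f₁.Monic)
    (hirr : Irreducible f₁) (hdeg : f₁.natDegree = e)
    (hsep : (f₁.map (Int.castRingHom ℚ)).Separable) (r : ℕ) :
    ∃ K c0 : ℕ, 1 ≤ c0 ∧ ∀ N : ℕ, 1 ≤ N → ∀ Y : ℕ, Y ≤ r * N →
      (PP f₁ ((2 * (c0 * N)) ^ M) N Y).Finite ∧
      (PP f₁ ((2 * (c0 * N)) ^ M) N Y).ncard ≤ K * Y := by
  classical
  obtain ⟨c, hc⟩ := hCL f₁ hf₁ hirr
  set A : ℕ := ∑ i ∈ Finset.range (f₁.natDegree + 1), (f₁.coeff i).natAbs with hA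
  have hcoef : ∀ i, (f₁.coeff i).natAbs ≤ A := by
    intro i
    rcases le_or_gt i f₁.natDegree with hi | hi
    · exact Finset.single_le_sum (f := fun i => (f₁.coeff i).natAbs) (fun _ _ => Nat.zero_le _)
        (Finset.mem_range.2 (by omega))
    · rw [Polynomial.coeff_eq_zero_of_natDegree_lt hi]
      simp
  refine ⟨Nn * c, A + c * r + 1, by omega, fun N hN Y hY => ?_⟩
  rcases Nat.eq_zero_or_pos Y with rfl | hY0
  · apply finite_of_bound
    intro s hs
    have : s = ∅ := by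
      rw [Finset.eq_empty_iff_forall_notMem]
      intro p hp
      obtain ⟨-, -, -, -, g, y, h1, h2, -, -⟩ := hs hp
      have : g = 0 := by omega
      rw [this] at h1
      exact not_squarefree_zero h1
    rw [this]
    simp
  · obtain ⟨S, hS1, hS2, hS3⟩ := hc Y hY0
    apply finite_of_bound
    intro s hs
    have hcl : ∀ p : ℤ × ℤ, ∃ D : ℚ[X], p ∈ s → D ∈ S ∧ ∃ B : ℚ[X],
        f₁.map (Int.castRingHom ℚ) ∣ B ^ 2 - D * (C (p.1 : ℚ) - C (p.2 : ℚ) * X) := by
      intro p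
      by_cases hp : p ∈ s
      · obtain ⟨h1, h2, h3, h4, g, y, h5, h6, h7, h8⟩ := hs hp
        obtain ⟨D, hD, B, hB⟩ := hS3 p.1 p.2 g y h1.ne' h3 h5
          (by rw [Int.abs_eq_natAbs]; exact_mod_cast h6) h7 h8
        exact ⟨D, fun _ => ⟨hD, B, hB⟩⟩
      · exact ⟨0, fun h => absurd h hp⟩
    choose F hF using hcl
    have hH1 : 1 ≤ (A + c * r + 1) * N := Nat.mul_pos (by omega) hN
    have hcard := Finset.card_le_mul_card_image_of_maps_to (f := F) (s := s) (t := S)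
      (fun p hp => (hF p hp).1) Nn (fun D hD => by
        refine hM ((A + c * r + 1) * N) f₁ D (s.filter fun p => F p = D) hH1 hf₁ hdeg hsep ?_ ?_ ?_
        · intro i
          have h1 : (f₁.coeff i).natAbs ≤ (A + c * r + 1) * N := by
            calc (f₁.coeff i).natAbs ≤ A := hcoef i
              _ ≤ (A + c * r + 1) * 1 := by omega
              _ ≤ (A + c * r + 1) * N := Nat.mul_le_mul_left _ hN
          have h2 : |f₁.coeff i| = ((f₁.coeff i).natAbs : ℤ) := by rw [Int.natCast_natAbs]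
          rw [h2]
          exact_mod_cast h1
        · intro θ hθ
          obtain ⟨h1, h2, h3⟩ := hS2 D hD θ hθ
          refine ⟨h1, h2, h3.trans ?_⟩
          have h4 : c * Y ≤ (A + c * r + 1) * N := by
            calc c * Y ≤ c * (r * N) := Nat.mul_le_mul_left _ hY
              _ = (c * r) * N := by ring
              _ ≤ (A + c * r + 1) * N := Nat.mul_le_mul_right _ (by omega)
          exact_mod_cast h4
        · intro p hp
          rw [Finset.mem_filter] at hp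
          obtain ⟨hps, hpD⟩ := hp
          obtain ⟨h1, h2, h3, h4, -⟩ := hs hps
          obtain ⟨-, B, hB⟩ := hF p hps
          refine ⟨h1, ?_, h3, ?_, 1, one_ne_zero, B, ?_⟩
          · refine h2.trans ?_
            have h5 : N ≤ (A + c * r + 1) * N := Nat.le_mul_of_pos_left _ (by omega)
            exact_mod_cast h5
          · have h5 : (((2 * ((A + c * r + 1) * N)) ^ M : ℕ) : ℤ) =
                (2 * (((A + c * r + 1) * N : ℕ) : ℤ)) ^ M := by push_cast; ring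
            rw [← h5]
            exact h4
          · rw [hpD] at hB
            simpa using hB)
    calc s.card ≤ Nn * S.card := hcard
      _ ≤ Nn * (c * Y) := Nat.mul_le_mul_left _ hS1
      _ = Nn * c * Y := by ring

end Pool.Agent.K7.H90.AS
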