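import Pool.Agent.K7.H90.AS.B

/-! Assembly of project AT (MP_d88658_nt): case A. -/

set_option autoImplicit false

namespace Pool.Agent.K7.H90.AS

open Polynomial Pool.Agent.K7.H23.AT

theorem value_ne_zero {f : ℤ[X]} (hf : f.Monic) {B0 : ℕ} (hB0 : ∀ x : ℤ, f.eval x = 0 → x.natAbs ≤ B0)
    {x m : ℤ} (hm : 0 < m) (hxm : IsCoprime x m) (hx : B0 < x.natAbs) :
    (f.scaleRoots m).eval x ≠ 0 := by
  intro h
  have h1 := coprime_eval hf hxm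
  rw [h, isCoprime_zero_left] at h1
  have h2 : m = 1 := by
    rcases Int.isUnit_iff.1 h1 with h | h <;> omega
  rw [h2, scaleRoots_one] at h
  have := hB0 x h
  omega

/-- the case of large `s` and of small `g₁` -/
theorem mem_PP {f₁ : ℤ[X]} {N Y ms c0 M d : ℕ} {x m g1 y1 : ℤ} (hm : 0 < m) (hmN : m ≤ N)
    (hxm : IsCoprime x m) (hd : N ≤ d ^ 2) (hd1 : 1 ≤ d) (hN : (2 * c0) ^ ms ≤ N)
    (hM : 2 * (ms + 1) ≤ M) (hx : d ^ M < x.natAbs) (hg : Squarefree g1) (hgY : g1.natAbs ≤ Y)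
    (hy : y1 ≠ 0) (he : (f₁.scaleRoots m).eval x = g1 * y1 ^ 2) :
    (x, m) ∈ PP f₁ ((2 * (c0 * N)) ^ ms) N Y := by
  refine ⟨hm, hmN, hxm, ?_, g1, y1, hg, hgY, hy, he⟩
  have h1 : (2 * (c0 * N)) ^ ms ≤ d ^ M := by
    calc (2 * (c0 * N)) ^ ms = (2 * c0) ^ ms * N ^ ms := by rw [← mul_pow]; ring
      _ ≤ N * N ^ ms := Nat.mul_le_mul_right _ hN
      _ = N ^ (ms + 1) := by ring
      _ ≤ (d ^ 2) ^ (ms + 1) := Nat.pow_le_pow_left hd _
      _ = d ^ (2 * (ms + 1)) := by rw [← pow_mul]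
      _ ≤ d ^ M := Nat.pow_le_pow_right hd1 hM
  have h2 : (2 * (c0 * N)) ^ ms < x.natAbs := by omega
  show (((2 * (c0 * N)) ^ ms : ℕ) : ℤ) < |x|
  rw [Int.abs_eq_natAbs]
  exact_mod_cast h2

/-- the primes in the remaining case -/
theorem root_of {f₁ : ℤ[X]} {R N K : ℕ} {x m g0 g1 h1 y1 s : ℤ}
    (hm : 0 < m) (hg1 : g1 ≠ 0) (hh1 : h1 ≠ 0)
    (hsz : g1.natAbs * h1.natAbs ≤ R ^ 2 * g0.natAbs)
    (hN : g0.natAbs * m.natAbs * s.natAbs ^ 2 ≤ N) (hs : 0 < s) (hK : N < g1.natAbs * K)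
    (he : (f₁.scaleRoots m).eval x = g1 * y1 ^ 2)
    (hpr : ∀ p : ℕ, p.Prime → (p : ℤ) ∣ g0 → (p : ℤ) ∣ g1 ∨ (p : ℤ) ∣ h1)
    {p : ℕ} (hp : p.Prime) (hpn : p ∣ g0.natAbs * m.natAbs) (hpK : R ^ 2 * K < p) :
    ∃ r : ℤ, (p : ℤ) ∣ f₁.eval r := by
  have hs1 : 1 ≤ s.natAbs ^ 2 := Nat.one_le_pow _ _ (by omega)
  have hg1' : 0 < g1.natAbs := Int.natAbs_pos.2 hg1
  have hh1' : 0 < h1.natAbs := Int.natAbs_pos.2 hh1
  have hm' : 0 < m.natAbs := Int.natAbs_pos.2 hm.ne'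
  have h2 : g0.natAbs * m.natAbs ≤ N := by
    calc g0.natAbs * m.natAbs = g0.natAbs * m.natAbs * 1 := (mul_one _).symm
      _ ≤ g0.natAbs * m.natAbs * s.natAbs ^ 2 := Nat.mul_le_mul_left _ hs1
      _ ≤ N := hN
  have h3 : g1.natAbs * (m.natAbs * h1.natAbs) < g1.natAbs * (R ^ 2 * K) ∨ R = 0 := by
    rcases Nat.eq_zero_or_pos R with h0 | h0
    · exact Or.inr h0
    · left
      calc g1.natAbs * (m.natAbs * h1.natAbs) = m.natAbs * (g1.natAbs * h1.natAbs) := by ring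
        _ ≤ m.natAbs * (R ^ 2 * g0.natAbs) := Nat.mul_le_mul_left _ hsz
        _ = R ^ 2 * (g0.natAbs * m.natAbs) := by ring
        _ ≤ R ^ 2 * N := Nat.mul_le_mul_left _ h2
        _ < R ^ 2 * (g1.natAbs * K) := Nat.mul_lt_mul_of_pos_left hK (by positivity)
        _ = g1.natAbs * (R ^ 2 * K) := by ring
  rcases h3 with h3 | h3
  swap
  · rw [h3] at hsz
    have : 0 < g1.natAbs * h1.natAbs := Nat.mul_pos hg1' hh1'
    simp at hsz
    rcases hsz with h | h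
    · exact absurd h hg1
    · exact absurd h hh1
  have h4 : m.natAbs * h1.natAbs < R ^ 2 * K := lt_of_mul_lt_mul_left h3 (Nat.zero_le _)
  have h5 : m.natAbs < p := by
    have : m.natAbs * 1 ≤ m.natAbs * h1.natAbs := Nat.mul_le_mul_left _ hh1'
    omega
  have h6 : h1.natAbs < p := by
    have : 1 * h1.natAbs ≤ m.natAbs * h1.natAbs := Nat.mul_le_mul_right _ hm'
    omega
  have hpm : ¬ (p : ℤ) ∣ m := by
    rw [Int.natCast_dvd]
    exact Nat.not_dvd_of_pos_of_lt hm' h5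
  have hph : ¬ (p : ℤ) ∣ h1 := by
    rw [Int.natCast_dvd]
    exact Nat.not_dvd_of_pos_of_lt hh1' h6
  have h7 : (p : ℤ) ∣ g0 := by
    rcases (hp.dvd_mul).1 hpn with h | h
    · exact Int.natCast_dvd.2 h
    · exact absurd (Int.natCast_dvd.2 h) hpm
  have h8 : (p : ℤ) ∣ g1 := (hpr p hp h7).resolve_right hph
  obtain ⟨r, hr⟩ := exists_r x hp hpm
  refine ⟨r, (hom_mod f₁ hp hpm hr).1 ?_⟩
  rw [he]
  exact h8.mul_right _

end Pool.Agent.K7.H90.AS
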