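import Pool.Agent.K7.H90.AS.C

/-! Assembly of project AT (MP_d88658_nt): case A, the theorem. -/

set_option autoImplicit false

namespace Pool.Agent.K7.H90.AS

open Polynomial Pool.Agent.K7.H23.AT

/-- the final inequality -/
theorem final_ineq {ε : ℝ} (hε : 0 < ε) {N S K CC : ℕ} (hS : 0 < S) (hK : 0 < K)
    (h1 : 4 * (CC : ℝ) / ε ≤ S) {C2 : ℕ} (h2 : 4 * ((S * C2 : ℕ) : ℝ) / ε ≤ K)
    (hN : 144 / ε ^ 2 ≤ N) {t0 t1 t2 t3 : ℝ} (ht0 : t0 ≤ 2 * (Nat.sqrt N : ℝ) + 1)
    (ht1 : t1 ≤ CC * (N : ℝ) * (S : ℝ)⁻¹) (ht2 : t2 ≤ ((S * C2 : ℕ) : ℝ) * ((N : ℝ) / K))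
    (ht3 : t3 ≤ 2 * (S : ℝ) * (ε / (8 * S) * N)) : t0 + t1 + t2 + t3 ≤ ε * N := by
  have hSr : (0 : ℝ) < S := by exact_mod_cast hS
  have hKr : (0 : ℝ) < K := by exact_mod_cast hK
  have hNpos : (0 : ℝ) < N := lt_of_lt_of_le (by positivity) hN
  have hN1 : (1 : ℝ) ≤ N := by
    have : 0 < N := by exact_mod_cast hNpos
    exact_mod_cast this
  -- t0
  have e0 : t0 ≤ ε / 4 * N := by
    have hs : (Nat.sqrt N : ℝ) ≤ Real.sqrt N := Real.nat_sqrt_le_real_sqrt
    have hs1 : (1 : ℝ) ≤ Real.sqrt N := by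
      rw [Real.one_le_sqrt]; exact hN1
    have hs2 : Real.sqrt N * Real.sqrt N = N := Real.mul_self_sqrt hNpos.le
    have hs3 : 12 / ε ≤ Real.sqrt N := by
      apply Real.le_sqrt_of_sq_le
      rw [div_pow]
      norm_num
      exact hN
    rw [div_le_iff₀ hε] at hs3
    nlinarith
  have e1 : t1 ≤ ε / 4 * N := by
    refine ht1.trans ?_
    rw [div_le_iff₀ hε] at h1
    rw [← div_eq_mul_inv, div_le_iff₀ hSr]
    nlinarith
  have e2 : t2 ≤ ε / 4 * N := by
    refine ht2.trans ?_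
    rw [div_le_iff₀ hε] at h2
    rw [← mul_div_assoc, div_le_iff₀ hKr]
    nlinarith
  have e3 : t3 ≤ ε / 4 * N := by
    refine ht3.trans (le_of_eq ?_)
    field_simp
    ring
  linarith

theorem ag (hCL : StCL) (hSF : StSF) (hDE : StDE) : StAG := by
  classical
  intro n
  have hall : ∀ e : ℕ, ∃ M N : ℕ, 3 ≤ e → SFe e M N := by
    intro e
    by_cases he : 3 ≤ e
    · obtain ⟨M, N, h⟩ := hSF e he
      exact ⟨M, N, fun _ => h⟩
    · exact ⟨0, 0, fun h => absurd h he⟩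
  choose MS NS hMS using hall
  refine ⟨2 * (∑ e ∈ Finset.range (n + 1), MS e + 1), ?_⟩
  intro f f₁ hf hdeg hsep hf₁ hirr hdvd h3
  obtain ⟨h, rfl⟩ := hdvd
  set e := f₁.natDegree with he
  have hen : e ≤ n := by
    rw [← hdeg]
    exact natDegree_le_of_dvd (Dvd.intro _ rfl) hf.ne_zero
  have hMe : MS e ≤ ∑ e ∈ Finset.range (n + 1), MS e :=
    Finset.single_le_sum (f := MS) (fun _ _ => Nat.zero_le _) (Finset.mem_range.2 (by omega))
  set M := 2 * (∑ e ∈ Finset.range (n + 1), MS e + 1) with hM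
  have hMM : 2 * (MS e + 1) ≤ M := by omega
  rw [Polynomial.map_mul] at hsep
  obtain ⟨R, a, b, hR, hab⟩ := bezout hsep.isCoprime
  have hsep₁ : (f₁.map (Int.castRingHom ℚ)).Separable := hsep.of_mul_left
  obtain ⟨C1, c0, hc0, hcount⟩ := count hCL (hMS e h3) hf₁ hirr he.symm hsep₁ (R ^ 2)
  intro ε hε
  -- parameters
  obtain ⟨S, hS1⟩ := exists_nat_ge (max 1 (4 * ((C1 * R ^ 2 : ℕ) : ℝ) / ε))
  have hS0 : 0 < S := by
    have : (1 : ℝ) ≤ S := (le_max_left _ _).trans hS1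
    exact_mod_cast this
  obtain ⟨K, hK1⟩ := exists_nat_ge (max 1 (4 * ((S * C1 : ℕ) : ℝ) / ε))
  have hK0 : 0 < K := by
    have : (1 : ℝ) ≤ K := (le_max_left _ _).trans hK1
    exact_mod_cast this
  have hSr : (0 : ℝ) < S := by exact_mod_cast hS0
  obtain ⟨N₁, hN₁⟩ := hDE f₁ hf₁ hirr (by omega) (R ^ 2 * K) (ε / (8 * S)) (by positivity)
  obtain ⟨N₂, hN₂⟩ := exists_nat_ge (144 / ε ^ 2)
  set B0 : ℕ := ∑ x ∈ (f₁ * h).roots.toFinset, x.natAbs with hB0
  have hroots : ∀ x : ℤ, (f₁ * h).eval x = 0 → x.natAbs ≤ B0 := by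
    intro x hx
    refine Finset.single_le_sum (f := fun x : ℤ => x.natAbs) (fun _ _ => Nat.zero_le _) ?_
    rw [Multiset.mem_toFinset, mem_roots hf.ne_zero]
    exact hx
  refine ⟨N₁ + N₂ + B0 + (2 * c0) ^ MS e + 1, fun N hN => ?_⟩
  have hNN1 : N₁ ≤ N := by omega
  have hNN2 : N₂ ≤ N := by omega
  have hNB : B0 < N := by
    have : 0 < (2 * c0) ^ MS e := by positivity
    omega
  have hNc : (2 * c0) ^ MS e ≤ N := by omega
  have hN1 : 1 ≤ N := by omega
  -- the sets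
  set PF : ℕ → Finset (ℤ × ℤ) := fun Y =>
    if hfin : (PP f₁ ((2 * (c0 * N)) ^ MS e) N Y).Finite then hfin.toFinset else ∅ with hPF
  have hPFmem : ∀ Y, Y ≤ R ^ 2 * N → ∀ p, p ∈ PP f₁ ((2 * (c0 * N)) ^ MS e) N Y → p ∈ PF Y := by
    intro Y hY p hp
    have hfin := (hcount N hN1 Y hY).1
    rw [hPF]
    simp only [dif_pos hfin, Set.Finite.mem_toFinset]
    exact hp
  have hPFcard : ∀ Y, Y ≤ R ^ 2 * N → (PF Y).card ≤ C1 * Y := by
    intro Y hY
    obtain ⟨hfin, h1⟩ := hcount N hN1 Y hY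
    rw [hPF]
    simp only [dif_pos hfin]
    rw [← Set.ncard_eq_toFinset_card _ hfin]
    exact h1
  have hWex : ∀ p : ℤ × ℤ, ∃ w : ℤ, ∀ g0 u : ℤ, Squarefree g0 →
      ((f₁ * h).scaleRoots p.2).eval p.1 ≠ 0 →
      g0 * ((f₁ * h).scaleRoots p.2).eval p.1 = u ^ 2 → g0 = w := by
    intro p
    by_cases hex : ∃ g0 u : ℤ, Squarefree g0 ∧ ((f₁ * h).scaleRoots p.2).eval p.1 ≠ 0 ∧
      g0 * ((f₁ * h).scaleRoots p.2).eval p.1 = u ^ 2
    · obtain ⟨g0, u, h1, h2, h4⟩ := hex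
      exact ⟨g0, fun g u' h5 h6 h7 => sqf_unique h5 h1 h2 h7 h4⟩
    · exact ⟨0, fun g u h5 h6 h7 => absurd ⟨g, u, h5, h6, h7⟩ hex⟩
  choose W hW using hWex
  set DS : Set ℕ := {D : ℕ | 1 ≤ D ∧ D ≤ N ∧ ∀ p : ℕ, p.Prime → p ∣ D → R ^ 2 * K < p →
    ∃ r : ℤ, (p : ℤ) ∣ f₁.eval r} with hDS
  have hDSfin : DS.Finite := (Set.finite_Icc 1 N).subset fun D hD => ⟨hD.1, hD.2.1⟩
  set DF : Finset ℕ := hDSfin.toFinset with hDF
  have hDFcard : (DF.card : ℝ) ≤ ε / (8 * S) * N := by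
    rw [hDF, ← Set.ncard_eq_toFinset_card _ hDSfin]
    exact hN₁ N hNN1
  set T0 : Finset ℤ := Finset.Icc (-(Nat.sqrt N : ℤ)) (Nat.sqrt N) with hT0
  set T1 : Finset ℤ := (Finset.Ioc S N).biUnion fun s =>
    (PF (R ^ 2 * N / s ^ 2)).image fun p => W p * p.2 * (s : ℤ) ^ 2 with hT1
  set T2 : Finset ℤ := (Finset.Icc 1 S).biUnion fun s =>
    (PF (N / K)).image fun p => W p * p.2 * (s : ℤ) ^ 2 with hT2
  set T3 : Finset ℤ := (Finset.Icc 1 S).biUnion fun s =>
    (DF.image fun n : ℕ => (n : ℤ) * (s : ℤ) ^ 2) ∪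
      DF.image fun n : ℕ => -(n : ℤ) * (s : ℤ) ^ 2 with hT3
  have hsub : {D : ℤ | D ∈ ExcG (f₁ * h) M ∧ |D| ≤ N} ⊆ ((T0 ∪ T1 ∪ T2 ∪ T3 : Finset ℤ) : Set ℤ) := by
    rintro D ⟨⟨hD, g, m, x, y, hDg, hm, hxm, hy, hx⟩, hDN⟩
    have hd1 : 1 ≤ D.natAbs := Int.natAbs_pos.2 hD
    have hDN' : D.natAbs ≤ N := by
      rw [Int.abs_eq_natAbs] at hDN
      exact_mod_cast hDN
    have hx' : D.natAbs ^ M < x.natAbs := by
      rw [Int.abs_eq_natAbs, Int.abs_eq_natAbs] at hx
      exact_mod_cast hx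
    simp only [Finset.coe_union, Set.mem_union, Finset.mem_coe]
    by_cases hsq : D.natAbs ≤ Nat.sqrt N
    · left; left; left
      rw [hT0, Finset.mem_Icc]
      omega
    · have hd2 : N < D.natAbs ^ 2 := by
        rw [not_le] at hsq
        exact Nat.sqrt_lt'.1 hsq
      have hM2 : D.natAbs ^ 2 ≤ D.natAbs ^ M := Nat.pow_le_pow_right hd1 (by omega)
      have hF := value_ne_zero hf hroots hm hxm (by omega)
      have hRz : (R : ℤ) ≠ 0 := by exact_mod_cast hR.ne'
      obtain ⟨s, g0, g1, h1, y1, w, hs, eD, s0, s1, s2, hy1, e1, e2, hsz, hpr⟩ :=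
        extract hRz hab hf₁ hD hDg hxm hy hF
      rw [Int.natAbs_natCast] at hsz
      have hsN : (s.natAbs : ℤ) = s := by rw [Int.natCast_natAbs, abs_of_pos hs]
      have hs' : 0 < s.natAbs := Int.natAbs_pos.2 hs.ne'
      have hm' : 0 < m.natAbs := Int.natAbs_pos.2 hm.ne'
      have hh1 : 0 < h1.natAbs := Int.natAbs_pos.2 s2.ne_zero
      have hg0 : 0 < g0.natAbs := Int.natAbs_pos.2 s0.ne_zero
      have eDn : D.natAbs = g0.natAbs * m.natAbs * s.natAbs ^ 2 := by
        rw [eD, Int.natAbs_mul, Int.natAbs_mul, Int.natAbs_pow]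
      have hW0 : g0 = W (x, m) := hW (x, m) g0 w s0 hF e2
      have hmN : m ≤ N := by
        have h5 : m.natAbs ≤ D.natAbs := by
          rw [eDn]
          calc m.natAbs = 1 * m.natAbs * 1 := by ring
            _ ≤ g0.natAbs * m.natAbs * s.natAbs ^ 2 :=
              Nat.mul_le_mul (Nat.mul_le_mul_right _ hg0) (Nat.one_le_pow _ _ hs')
        omega
      have hgs : g0.natAbs * s.natAbs ^ 2 ≤ N := by
        refine le_trans ?_ hDN'
        rw [eDn]
        calc g0.natAbs * s.natAbs ^ 2 = g0.natAbs * 1 * s.natAbs ^ 2 := by ring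
          _ ≤ g0.natAbs * m.natAbs * s.natAbs ^ 2 :=
            Nat.mul_le_mul_right _ (Nat.mul_le_mul_left _ hm')
      have hsz' : g1.natAbs ≤ R ^ 2 * g0.natAbs :=
        (Nat.le_mul_of_pos_right _ hh1).trans hsz
      by_cases hsS : S < s.natAbs
      · left; left; right
        rw [hT1, Finset.mem_biUnion]
        refine ⟨s.natAbs, ?_, ?_⟩
        · rw [Finset.mem_Ioc]
          refine ⟨hsS, ?_⟩
          calc s.natAbs ≤ s.natAbs ^ 2 := Nat.le_self_pow (by norm_num) _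
            _ = 1 * s.natAbs ^ 2 := (one_mul _).symm
            _ ≤ g0.natAbs * s.natAbs ^ 2 := Nat.mul_le_mul_right _ hg0
            _ ≤ N := hgs
        · rw [Finset.mem_image]
          refine ⟨(x, m), hPFmem _ (Nat.div_le_self _ _) _ ?_, ?_⟩
          · refine mem_PP hm hmN hxm hd2.le hd1 hNc hMM hx' s1 ?_ hy1 e1
            rw [Nat.le_div_iff_mul_le (by positivity)]
            calc g1.natAbs * s.natAbs ^ 2 ≤ (R ^ 2 * g0.natAbs) * s.natAbs ^ 2 :=
                  Nat.mul_le_mul_right _ hsz'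
              _ = R ^ 2 * (g0.natAbs * s.natAbs ^ 2) := by ring
              _ ≤ R ^ 2 * N := Nat.mul_le_mul_left _ hgs
          · simp only
            rw [← hW0, hsN]
            exact eD.symm
      · have hsS' : s.natAbs ∈ Finset.Icc 1 S := by
          rw [Finset.mem_Icc]
          omega
        by_cases hgK : g1.natAbs * K ≤ N
        · left; right
          rw [hT2, Finset.mem_biUnion]
          refine ⟨s.natAbs, hsS', ?_⟩
          rw [Finset.mem_image]
          refine ⟨(x, m), hPFmem _ ?_ _ ?_, ?_⟩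
          · calc N / K ≤ N := Nat.div_le_self _ _
              _ = 1 * N := (one_mul _).symm
              _ ≤ R ^ 2 * N := Nat.mul_le_mul_right _ (Nat.one_le_pow _ _ hR)
          · refine mem_PP hm hmN hxm hd2.le hd1 hNc hMM hx' s1 ?_ hy1 e1
            rwa [Nat.le_div_iff_mul_le hK0]
          · simp only
            rw [← hW0, hsN]
            exact eD.symm
        · right
          rw [hT3, Finset.mem_biUnion]
          refine ⟨s.natAbs, hsS', ?_⟩
          have hn : g0.natAbs * m.natAbs ∈ DF := by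
            rw [hDF, Set.Finite.mem_toFinset]
            refine ⟨Nat.mul_pos hg0 hm', ?_, ?_⟩
            · refine le_trans ?_ hDN'
              rw [eDn]
              exact Nat.le_mul_of_pos_right _ (by positivity)
            · intro p hp hpn hpK
              exact root_of (N := N) hm s1.ne_zero s2.ne_zero hsz (eDn ▸ hDN') hs
                (by omega) e1 hpr hp hpn hpK
          have hmz : (m.natAbs : ℤ) = m := by rw [Int.natCast_natAbs, abs_of_pos hm]
          rw [Finset.mem_union, Finset.mem_image, Finset.mem_image]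
          rcases Int.natAbs_eq g0 with hg | hg
          · left
            refine ⟨_, hn, ?_⟩
            have hg' : (g0.natAbs : ℤ) = g0 := hg.symm
            rw [Nat.cast_mul, hmz, hsN, hg']
            exact eD.symm
          · right
            refine ⟨_, hn, ?_⟩
            have hg' : (g0.natAbs : ℤ) = -g0 := by omega
            rw [Nat.cast_mul, hmz, hsN, hg', eD]
            ring
  -- cardinalities
  have hcard : (Set.ncard {D : ℤ | D ∈ ExcG (f₁ * h) M ∧ |D| ≤ N} : ℝ) ≤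
      (T0.card : ℝ) + T1.card + T2.card + T3.card := by
    have h1 : Set.ncard {D : ℤ | D ∈ ExcG (f₁ * h) M ∧ |D| ≤ N} ≤
        T0.card + T1.card + T2.card + T3.card := by
      calc _ ≤ ((T0 ∪ T1 ∪ T2 ∪ T3 : Finset ℤ) : Set ℤ).ncard :=
            Set.ncard_le_ncard hsub (Finset.finite_toSet _)
        _ = (T0 ∪ T1 ∪ T2 ∪ T3).card := Set.ncard_coe_finset _
        _ ≤ _ := by
          refine (Finset.card_union_le _ _).trans (Nat.add_le_add_right ?_ _)
          refine (Finset.card_union_le _ _).trans (Nat.add_le_add_right ?_ _)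
          exact Finset.card_union_le _ _
    exact_mod_cast h1
  refine hcard.trans ?_
  refine final_ineq hε hS0 hK0 (CC := C1 * R ^ 2) (C2 := C1) ((le_max_right _ _).trans hS1)
    ((le_max_right _ _).trans hK1) (hN₂.trans (by exact_mod_cast hNN2)) ?_ ?_ ?_ ?_
  · rw [hT0, Int.card_Icc]
    have : ((((Nat.sqrt N : ℕ) : ℤ) + 1 - -((Nat.sqrt N : ℕ) : ℤ)).toNat) = 2 * Nat.sqrt N + 1 := by
      omega
    rw [this]
    push_cast
    exact le_rfl
  · -- T1
    have h1 : (T1.card : ℝ) ≤ ∑ s ∈ Finset.Ioc S N, (((C1 * R ^ 2 : ℕ) : ℝ) * N) * (((s : ℝ) ^ 2)⁻¹) := by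
      calc (T1.card : ℝ) ≤ ((∑ s ∈ Finset.Ioc S N, C1 * (R ^ 2 * N / s ^ 2) : ℕ) : ℝ) := by
            have h2 : T1.card ≤ ∑ s ∈ Finset.Ioc S N, C1 * (R ^ 2 * N / s ^ 2) := by
              rw [hT1]
              refine Finset.card_biUnion_le.trans (Finset.sum_le_sum fun s _ => ?_)
              exact Finset.card_image_le.trans (hPFcard _ (Nat.div_le_self _ _))
            exact_mod_cast h2
        _ ≤ _ := by
            push_cast
            refine Finset.sum_le_sum fun s _ => ?_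
            have h3 : ((R ^ 2 * N / s ^ 2 : ℕ) : ℝ) ≤ ((R ^ 2 * N : ℕ) : ℝ) / ((s ^ 2 : ℕ) : ℝ) :=
              Nat.cast_div_le
            push_cast at h3
            calc (C1 : ℝ) * ((R ^ 2 * N / s ^ 2 : ℕ) : ℝ) ≤ C1 * ((R : ℝ) ^ 2 * N / (s : ℝ) ^ 2) :=
                  mul_le_mul_of_nonneg_left h3 (Nat.cast_nonneg _)
              _ = C1 * (R : ℝ) ^ 2 * N * ((s : ℝ) ^ 2)⁻¹ := by
                  rw [div_eq_mul_inv]; ring
    refine h1.trans ?_
    rw [← Finset.mul_sum]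
    refine mul_le_mul_of_nonneg_left ?_ (by positivity)
    rcases le_or_gt S N with hSN | hSN
    · refine (sum_Ioc_inv_sq_le_sub hS0.ne' hSN).trans ?_
      have : (0 : ℝ) ≤ (N : ℝ)⁻¹ := by positivity
      linarith
    · rw [Finset.Ioc_eq_empty (by omega)]
      simp
  · -- T2
    have h2 : T2.card ≤ S * (C1 * (N / K)) := by
      rw [hT2]
      refine Finset.card_biUnion_le.trans ?_
      calc _ ≤ ∑ _s ∈ Finset.Icc 1 S, C1 * (N / K) := by
            refine Finset.sum_le_sum fun s _ => Finset.card_image_le.trans (hPFcard _ ?_)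
            calc N / K ≤ N := Nat.div_le_self _ _
              _ = 1 * N := (one_mul _).symm
              _ ≤ R ^ 2 * N := Nat.mul_le_mul_right _ (Nat.one_le_pow _ _ hR)
        _ = S * (C1 * (N / K)) := by
            rw [Finset.sum_const, Nat.card_Icc, smul_eq_mul]
            simp
    calc (T2.card : ℝ) ≤ ((S * (C1 * (N / K)) : ℕ) : ℝ) := by exact_mod_cast h2
      _ = ((S * C1 : ℕ) : ℝ) * ((N / K : ℕ) : ℝ) := by push_cast; ring
      _ ≤ ((S * C1 : ℕ) : ℝ) * ((N : ℝ) / K) :=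
          mul_le_mul_of_nonneg_left Nat.cast_div_le (Nat.cast_nonneg _)
  · -- T3
    have h2 : T3.card ≤ S * (2 * DF.card) := by
      rw [hT3]
      refine Finset.card_biUnion_le.trans ?_
      calc _ ≤ ∑ _s ∈ Finset.Icc 1 S, 2 * DF.card := by
            refine Finset.sum_le_sum fun s _ => (Finset.card_union_le _ _).trans ?_
            have h5 := Finset.card_image_le (s := DF) (f := fun n : ℕ => (n : ℤ) * (s : ℤ) ^ 2)
            have h6 := Finset.card_image_le (s := DF) (f := fun n : ℕ => -(n : ℤ) * (s : ℤ) ^ 2)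
            omega
        _ = S * (2 * DF.card) := by
            rw [Finset.sum_const, Nat.card_Icc, smul_eq_mul]
            simp
    calc (T3.card : ℝ) ≤ ((S * (2 * DF.card) : ℕ) : ℝ) := by exact_mod_cast h2
      _ = 2 * (S : ℝ) * (DF.card : ℝ) := by push_cast; ring
      _ ≤ 2 * (S : ℝ) * (ε / (8 * S) * N) := mul_le_mul_of_nonneg_left hDFcard (by positivity)

end Pool.Agent.K7.H90.AS
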