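import Pool.Agent.K7.H90.AS.D
import Pool.Agent.K7.H90.DE.Main
import Pool.Agent.K7.H89.CL.D
import Pool.Agent.K7.H23.AT.SF

/-! Assembly of project AT (MP_d88658_nt): case A. -/

set_option autoImplicit false

namespace Pool.Agent.K7.H90.AS

/-- almost all twists, one irreducible factor of degree at least three -/
theorem stAG : Pool.Agent.K7.H23.AT.StAG :=
  ag Pool.Agent.K7.H89.CL.stCL Pool.Agent.K7.H23.AT.sf Pool.Agent.K7.H90.DE.stDE

end Pool.Agent.K7.H90.AS
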